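import Pool.Agent.H85P.GEN
import Pool.Agent.H14F.BM

set_option autoImplicit false

/-! The Brauer-Manin obstruction for the curves `(x² - m)(y² - n) = k`. -/

namespace Pool.Agent.H85P

open Polynomial Pool.Agent.W313.BMX
open Pool.Agent.H14Q (NR nr_dvd)

/-- the forms `x² - m w²` and `n x² - (n m - k) w²` have a certificate -/
theorem SC.certF {n k m : ℤ} (h : SC n k m) (hk : k ≠ 0) :
    Pool.Agent.H14F.Cert ![1, 0, -m] ![n, 0, -(n * m - k)] := by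
  have hres : Pool.Agent.H14F.res ![1, 0, -m] ![n, 0, -(n * m - k)] = k ^ 2 := by
    simp [Pool.Agent.H14F.res]
  refine ⟨by rw [hres]; exact pow_ne_zero 2 hk, fun t ht hsq => ?_⟩
  rw [hres] at ht
  have htk : t ∣ k := (hsq.dvd_pow_iff_dvd two_ne_zero).1 ht
  obtain ⟨q, hq, h1, h2, h3⟩ := h t htk
  refine ⟨q, hq, fun x w u v e1 e2 => ?_⟩
  have ef : Pool.Agent.H14F.ev ![1, 0, -m] x w = x ^ 2 - m * w ^ 2 := by
    simp [Pool.Agent.H14F.ev]
    ring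
  have eg : Pool.Agent.H14F.ev ![n, 0, -(n * m - k)] x w = n * x ^ 2 - (n * m - k) * w ^ 2 := by
    simp [Pool.Agent.H14F.ev]
    ring
  rw [eg] at e2
  have hqz : Prime (q : ℤ) := Nat.prime_iff_prime_int.1 hq
  have hq2 : (q : ℤ) ∣ (q : ℤ) ^ 2 := dvd_pow_self _ two_ne_zero
  have hn : ¬ (q : ℤ) ∣ t * n := by
    intro hd
    apply h3
    have : ((t * n : ℤ) : ZMod q) = 0 := by
      rw [ZMod.intCast_zmod_eq_zero_iff_dvd]
      exact hd
    rw [this]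
    exact ⟨0, by simp⟩
  have hqn : ¬ (q : ℤ) ∣ n := fun hd => hn (hd.mul_left t)
  have e3 : (q : ℤ) ∣ n * x ^ 2 - t * v ^ 2 := by
    have h5 : (q : ℤ) ∣ (n * m - k) * w ^ 2 := h1.mul_right _
    have h6 := dvd_add (hq2.trans e2) h5
    have e : n * x ^ 2 - (n * m - k) * w ^ 2 - t * v ^ 2 + (n * m - k) * w ^ 2 = n * x ^ 2 - t * v ^ 2 := by ring
    rwa [e] at h6
  have e4 : (q : ℤ) ∣ (n * x) ^ 2 - (t * n) * v ^ 2 := by
    have e : (n * x) ^ 2 - (t * n) * v ^ 2 = n * (n * x ^ 2 - t * v ^ 2) := by ring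
    rw [e]
    exact e3.mul_left _
  obtain ⟨h7, h8⟩ := nr_dvd hq h3 e4
  have hx : (q : ℤ) ∣ x := (hqz.dvd_or_dvd h7).resolve_left hqn
  refine ⟨hx, ?_⟩
  by_contra hw
  apply h2
  have e5 : (q : ℤ) ^ 2 ∣ (n * m - k) * w ^ 2 := by
    have h9 : (q : ℤ) ^ 2 ∣ n * x ^ 2 := (pow_dvd_pow_of_dvd hx 2).mul_left _
    have h10 : (q : ℤ) ^ 2 ∣ t * v ^ 2 := (pow_dvd_pow_of_dvd h8 2).mul_left _
    have h11 := dvd_sub (dvd_sub h9 h10) e2
    have e : n * x ^ 2 - t * v ^ 2 - (n * x ^ 2 - (n * m - k) * w ^ 2 - t * v ^ 2) = (n * m - k) * w ^ 2 := by ring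
    rwa [e] at h11
  have hcop : IsCoprime ((q : ℤ) ^ 2) (w ^ 2) := by
    refine IsCoprime.pow ?_
    exact (hqz.coprime_iff_not_dvd).2 hw
  exact hcop.dvd_of_dvd_mul_right e5

/-- every adelic point is obstructed -/
theorem SC.bm {n k m : ℤ} (h : SC n k m) (hk : k ≠ 0) (hn : n ≠ 0) (F : ℤ[X]) (hF : 1 ≤ F.natDegree)
    (fac : Fin 2 → ℤ[X]) (hfac : fac = ![F ^ 2 - C m, C n * F ^ 2 - C (n * m - k)]) (P : AdelicPoint fac 1) :
    ∃ e : ℤ, e ≠ 0 ∧ Odd (ram (values P 0) e).ncard := by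
  have e0 : fac = Pool.Agent.H14F.facF F ![1, 0, -m] ![n, 0, -(n * m - k)] := by
    rw [hfac]
    funext i
    fin_cases i
    · simp [Pool.Agent.H14F.facF]
      ring
    · simp [Pool.Agent.H14F.facF]
      ring
  subst e0
  obtain ⟨e, he, hodd⟩ := (Pool.Agent.H14F.BM.t F ![1, 0, -m] ![n, 0, -(n * m - k)] hF (by simp) (by simpa using hn)
    (h.certF hk)).1 P
  refine ⟨e, ?_, hodd⟩
  rcases he with rfl | rfl | ⟨-, h⟩
  · norm_num
  · norm_num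
  · rintro rfl
    norm_num at h

end Pool.Agent.H85P
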