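import Pool.Agent.H85P.Stm
import Pool.Agent.H14Q.Desc

set_option autoImplicit false

/-! The general theorem: well distributed families of curves `(x² - m)(y² - n) = k` with `n`, `k` fixed. -/

namespace Pool.Agent.H85P

open Finset
open Pool.Agent.H14Q (Cert Obs NR obs_c)

/-- For every divisor `g` of `k` some prime divides `n m - k` exactly once, modulo which `g n` is not a square. -/
def SC (n k m : ℤ) : Prop := ∀ g : ℤ, g ∣ k → ∃ q : ℕ, q.Prime ∧ (q : ℤ) ∣ n * m - k ∧ ¬ (q : ℤ) ^ 2 ∣ n * m - k ∧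
  NR q (g * n)

theorem SC.cert {n k m : ℤ} (h : SC n k m) (hk : k ≠ 0) : Cert m n k := by
  refine ⟨hk, fun g h' hgh => ?_⟩
  obtain ⟨q, hq, h1, h2, h3⟩ := h g ⟨h', hgh.symm⟩
  refine ⟨q, hq.two_le, obs_c hq ?_ ?_ h3⟩
  · rw [hgh, mul_comm m n]
    exact h1
  · rw [hgh, mul_comm m n]
    exact h2

open Classical in
lemma sum_biUnion_le_of_nonneg' {ι κ : Type} {Ω : Finset ι} (G : Finset κ) (F : κ → Finset ι) (w : ι → ℝ)
    (hw : ∀ i ∈ Ω, 0 ≤ w i) (hF : ∀ g ∈ G, F g ⊆ Ω) : ∑ i ∈ G.biUnion F, w i ≤ ∑ g ∈ G, ∑ i ∈ F g, w i := by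
  induction G using Finset.induction_on with
  | empty => simp
  | insert a s ha ih =>
    rw [biUnion_insert, sum_insert ha]
    have h1 := ih fun g hg => hF g (mem_insert_of_mem hg)
    have h2 : ∑ i ∈ F a ∪ s.biUnion F, w i ≤ ∑ i ∈ F a, w i + ∑ i ∈ s.biUnion F, w i := by
      rw [← sum_union_inter]
      have : 0 ≤ ∑ i ∈ F a ∩ s.biUnion F, w i :=
        sum_nonneg fun i hi => hw i (hF a (mem_insert_self _ _) (mem_inter.1 hi).1)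
      linarith
    linarith

open Classical in
theorem gen (hTK : S_TK) (hMQ : S_MQ) (n k : ℤ) (hk : k ≠ 0) (hn : ∀ g : ℤ, g ∣ k → ¬ IsSquare (g * n)) (W : ℕ) :
    ∃ (C : ℝ) (z₀ : ℕ), 0 ≤ C ∧ 3 ≤ z₀ ∧ ∀ z : ℕ, z₀ ≤ z → ∀ (ι : Type) (Ω : Finset ι) (w : ι → ℝ) (x : ι → ℤ),
      Lev W z Ω w x → ∑ i ∈ Ω.filter (fun i => ¬ SC n k (x i)), w i ≤ C / Real.log (Real.log z) := by
  have hn0 : n ≠ 0 := by
    rintro rfl
    exact hn 1 (one_dvd k) ⟨0, by simp⟩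
  set W' : ℕ := max W n.natAbs with hW'
  have hD : ∀ g : ℤ, ∃ δ : ℝ, 0 < δ ∧ ∃ z₀ : ℕ, g ∣ k → ∀ z : ℕ, z₀ ≤ z → δ * Real.log (Real.log z) ≤
      ∑ q ∈ (Icc 1 z).filter (fun q => q.Prime ∧ W' < q ∧ ¬ IsSquare ((g * n : ℤ) : ZMod q)), 1 / (q : ℝ) := by
    intro g
    by_cases hg : g ∣ k
    · obtain ⟨δ, hδ, h⟩ := hMQ (g * n) (hn g hg)
      obtain ⟨z₀, h0⟩ := h W'
      exact ⟨δ, hδ, z₀, fun _ => h0⟩
    · exact ⟨1, one_pos, 0, fun h => absurd h hg⟩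
  choose δ hδ zz hzz using hD
  set G : Finset ℤ := (Icc (-(k.natAbs : ℤ)) (k.natAbs : ℤ)).filter (fun g => g ∣ k) with hG
  have hmemG : ∀ g : ℤ, g ∣ k → g ∈ G := by
    intro g hg
    rw [hG, mem_filter, mem_Icc]
    have h1 : g.natAbs ≤ k.natAbs := Nat.le_of_dvd (Int.natAbs_pos.2 hk) (Int.natAbs_dvd_natAbs.2 hg)
    exact ⟨⟨by omega, by omega⟩, hg⟩
  refine ⟨∑ g ∈ G, 9 / δ g, 3 + ∑ g ∈ G, zz g, sum_nonneg fun g _ => div_nonneg (by norm_num) (hδ g).le, by omega,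
    fun z hz ι Ω w x hL => ?_⟩
  have hz3 : 3 ≤ z := by omega
  have hzr : (3 : ℝ) ≤ z := by exact_mod_cast hz3
  have hL1 : 1 < Real.log z := by
    rw [Real.lt_log_iff_exp_lt (by linarith)]
    exact Real.exp_one_lt_three.trans_le hzr
  have hLL : 0 < Real.log (Real.log z) := Real.log_pos hL1
  set P : ℤ → Finset ℕ := fun g =>
    (Icc 1 z).filter (fun q => q.Prime ∧ W' < q ∧ ¬ IsSquare ((g * n : ℤ) : ZMod q)) with hP
  have hS : ∀ g ∈ G, δ g * Real.log (Real.log z) ≤ ∑ q ∈ P g, 1 / (q : ℝ) := by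
    intro g hg
    refine hzz g (mem_filter.1 hg).2 z ?_
    have : zz g ≤ ∑ g ∈ G, zz g := single_le_sum (f := zz) (fun _ _ => Nat.zero_le _) hg
    omega
  have hbd : ∀ g ∈ G, ∑ i ∈ Ω.filter (fun i => ∀ q ∈ P g, ¬ ((q : ℤ) ∣ n * x i - k ∧ ¬ (q : ℤ) ^ 2 ∣ n * x i - k)), w i ≤
      9 / δ g / Real.log (Real.log z) := by
    intro g hg
    have hpos : 0 < δ g * Real.log (Real.log z) := mul_pos (hδ g) hLL
    have hne : (P g).Nonempty := by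
      rw [nonempty_iff_ne_empty]
      intro h0
      have := hS g hg
      rw [h0, sum_empty] at this
      linarith
    refine (hTK ι W z Ω w x (by omega) hL n k (P g) ?_ hne).trans ?_
    · intro q hq
      rw [hP, mem_filter, mem_Icc] at hq
      obtain ⟨⟨-, hqz⟩, hqp, hqW, -⟩ := hq
      refine ⟨hqp, lt_of_le_of_lt (le_max_left _ _) hqW, hqz, fun hd => ?_⟩
      have h1 := Nat.le_of_dvd (Int.natAbs_pos.2 hn0) (Int.natCast_dvd.1 hd)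
      have h2 : n.natAbs ≤ W' := le_max_right _ _
      omega
    · rw [div_div]
      exact div_le_div_of_nonneg_left (by norm_num) hpos (hS g hg)
  have hsub : Ω.filter (fun i => ¬ SC n k (x i)) ⊆ G.biUnion fun g =>
      Ω.filter (fun i => ∀ q ∈ P g, ¬ ((q : ℤ) ∣ n * x i - k ∧ ¬ (q : ℤ) ^ 2 ∣ n * x i - k)) := by
    intro i hi
    obtain ⟨hiΩ, hi⟩ := mem_filter.1 hi
    have h1 : ∃ g : ℤ, g ∣ k ∧ ∀ q : ℕ, ¬ (q.Prime ∧ (q : ℤ) ∣ n * x i - k ∧ ¬ (q : ℤ) ^ 2 ∣ n * x i - k ∧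
        NR q (g * n)) := by
      by_contra hcon
      apply hi
      intro g hg
      by_contra hc
      exact hcon ⟨g, hg, fun q hq => hc ⟨q, hq⟩⟩
    obtain ⟨g, hg, hno⟩ := h1
    rw [mem_biUnion]
    refine ⟨g, hmemG g hg, mem_filter.2 ⟨hiΩ, fun q hq => ?_⟩⟩
    rw [hP, mem_filter] at hq
    rintro ⟨h2, h3⟩
    exact hno q ⟨hq.2.1, h2, h3, hq.2.2.2⟩
  calc ∑ i ∈ Ω.filter (fun i => ¬ SC n k (x i)), w i
      ≤ ∑ i ∈ G.biUnion fun g =>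
        Ω.filter (fun i => ∀ q ∈ P g, ¬ ((q : ℤ) ∣ n * x i - k ∧ ¬ (q : ℤ) ^ 2 ∣ n * x i - k)), w i := by
        refine sum_le_sum_of_subset_of_nonneg hsub fun i hi _ => ?_
        obtain ⟨g, -, hi⟩ := mem_biUnion.1 hi
        exact hL.1 i (mem_filter.1 hi).1
    _ ≤ ∑ g ∈ G, ∑ i ∈ Ω.filter (fun i => ∀ q ∈ P g, ¬ ((q : ℤ) ∣ n * x i - k ∧ ¬ (q : ℤ) ^ 2 ∣ n * x i - k)), w i := by
        refine sum_biUnion_le_of_nonneg' G _ w hL.1 fun g _ => filter_subset _ _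
    _ ≤ ∑ g ∈ G, 9 / δ g / Real.log (Real.log z) := sum_le_sum hbd
    _ = (∑ g ∈ G, 9 / δ g) / Real.log (Real.log z) := by rw [sum_div]

end Pool.Agent.H85P
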