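import Pool.Agent.H85P.Stm
import Pool.Agent.H85G.F

set_option autoImplicit false

/-! Random integers with long range Gibbs digits are equidistributed modulo the integers up to `exp (c √K)`. -/

namespace Pool.Agent.H85P

open Finset
open Pool.Agent.H807R2.Dav
open Pool.Agent.W93.AU
open Pool.Agent.H85G (Good cc_pos)

theorem gib (hGP : S_GP) (hOR : S_OR) {b : ℕ} {C : ℕ → (ℕ → ℝ) → Prop} (hb : 2 ≤ b) (hC : Good b C) (κ : ℤ)
    (hκ : κ ≠ 0) : ∃ R : ℕ, 1 ≤ R ∧ ∀ K p, C K p → ∀ (c : ℤ) (t : ℕ), 1 ≤ t → R * t ^ 2 ≤ K →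
      Lev (max b κ.natAbs) (b ^ t) (range (b ^ K)) p (fun v => c + κ * (v : ℕ)) := by
  have hb0 : (0 : ℝ) < b := by exact_mod_cast (by omega : 0 < b)
  obtain ⟨μ, hμ0, hμ1, Q, H⟩ := hC.char _ (cc_pos hb)
  obtain ⟨D, hD⟩ := exists_pow_lt_of_lt_one (show 0 < (1 / (b : ℝ)) ^ 2 by positivity) hμ1
  refine ⟨4 * Q * D + 1, by omega, fun K p hp c t ht hK => ⟨fun v _ => hC.nonneg K p hp v, hC.sum K p hp,
    fun d hd2 hdz hℓ a => ?_⟩⟩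
  have hd : d ≤ b ^ (2 * t) := by
    rw [mul_comm, pow_mul]
    exact hdz
  have hN : Q * (D * t) * (2 * t + 2) ≤ K := by
    have h1 : Q * (D * t) * (2 * t + 2) ≤ Q * (D * t) * (4 * t) := Nat.mul_le_mul_left _ (by omega)
    have h2 : Q * (D * t) * (4 * t) = 4 * Q * D * t ^ 2 := by ring
    have h3 : 4 * Q * D * t ^ 2 ≤ (4 * Q * D + 1) * t ^ 2 := Nat.mul_le_mul_right _ (by omega)
    omega
  have hτ : μ ^ (D * t) ≤ 1 / ((b ^ t : ℕ) : ℝ) ^ 2 := by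
    rw [pow_mul]
    calc (μ ^ D) ^ t ≤ ((1 / (b : ℝ)) ^ 2) ^ t := pow_le_pow_left₀ (pow_nonneg hμ0 _) hD.le t
      _ = 1 / ((b ^ t : ℕ) : ℝ) ^ 2 := by
        push_cast
        rw [one_div, one_div, inv_pow, inv_pow, ← pow_mul, ← pow_mul, mul_comm]
  have hd1 : 1 ≤ d := by omega
  refine (hOR ℕ (range (b ^ K)) p (fun v => c + κ * (v : ℕ)) (fun v _ => hC.nonneg K p hp v) (hC.sum K p hp) d
    (μ ^ (D * t)) hd1 (pow_nonneg hμ0 _) (fun h hh => ?_) a).trans hτ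
  have hcard := hGP b hb κ t K (Q * (D * t)) d h hN hd2 hd (fun ℓ hℓp hℓd => by
    have h1 := hℓ ℓ hℓp hℓd
    refine ⟨lt_of_le_of_lt (le_max_left _ _) h1, fun hdv => ?_⟩
    have h2 := Nat.le_of_dvd (Int.natAbs_pos.2 hκ) (Int.natCast_dvd.1 hdv)
    have h3 : κ.natAbs ≤ max b κ.natAbs := le_max_right _ _
    omega) hh
  have h1 := H K p hp ((κ : ℝ) * ((h : ℝ) / (d : ℝ))) (D * t) hcard
  have e1 : ∑ v ∈ range (b ^ K), (p v : ℂ) * ee ((((c + κ * (v : ℕ) : ℤ) : ℝ)) * ((h : ℝ) / (d : ℝ))) =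
      ee ((c : ℝ) * ((h : ℝ) / (d : ℝ))) * ∑ v ∈ range (b ^ K), (p v : ℂ) * ee (v * ((κ : ℝ) * ((h : ℝ) / (d : ℝ)))) := by
    rw [mul_sum]
    refine sum_congr rfl fun v _ => ?_
    have e2 : ((((c + κ * (v : ℕ) : ℤ) : ℝ)) * ((h : ℝ) / (d : ℝ))) =
        (c : ℝ) * ((h : ℝ) / (d : ℝ)) + v * ((κ : ℝ) * ((h : ℝ) / (d : ℝ))) := by
      push_cast
      ring
    rw [e2, ee_add]
    ring
  rw [e1, norm_mul, norm_ee, one_mul]
  exact h1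

end Pool.Agent.H85P
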