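import Pool.Agent.H85P.Stm
import Pool.Agent.R557.AD.Few

set_option autoImplicit false

/-! Stub GP of project OP (helper74): good positions of a rational frequency. -/

namespace Pool.Agent.H85P.GPa
open Finset

lemma coprime_aux (b : ℕ) (hb0 : 2 ≤ b) (κ : ℤ) (j d : ℕ) (h : ℤ)
    (hp : ∀ ℓ : ℕ, ℓ.Prime → ℓ ∣ d → b < ℓ ∧ ¬ (ℓ : ℤ) ∣ κ) (hdh : ¬ (d : ℤ) ∣ h) :
    ¬ (d : ℤ) ∣ (b.factorial : ℤ) * ((b : ℤ) ^ j * (κ * h)) := by
  intro hdv
  apply hdh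
  have h1 : IsCoprime (d : ℤ) ((b.factorial : ℤ) * (b : ℤ) ^ j * κ) := by
    rw [Int.isCoprime_iff_gcd_eq_one]
    by_contra hne
    obtain ⟨ℓ, hℓ, hdvd⟩ := Nat.exists_prime_and_dvd hne
    have h2 : (ℓ : ℤ) ∣ (d : ℤ) := (Int.natCast_dvd_natCast.2 hdvd).trans (Int.gcd_dvd_left _ _)
    have h3 : (ℓ : ℤ) ∣ (b.factorial : ℤ) * (b : ℤ) ^ j * κ := (Int.natCast_dvd_natCast.2 hdvd).trans (Int.gcd_dvd_right _ _)
    have hd : ℓ ∣ d := Int.natCast_dvd_natCast.1 h2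
    obtain ⟨hb, hκ⟩ := hp ℓ hℓ hd
    have hpi : Prime (ℓ : ℤ) := Nat.prime_iff_prime_int.1 hℓ
    rcases hpi.dvd_or_dvd h3 with h4 | h4
    · rcases hpi.dvd_or_dvd h4 with h5 | h5
      · have h6 : ℓ ∣ b.factorial := Int.natCast_dvd_natCast.1 h5
        have := (hℓ.dvd_factorial).1 h6
        omega
      · have h6 : (ℓ : ℤ) ∣ (b : ℤ) := hpi.dvd_of_dvd_pow h5
        have h7 : ℓ ∣ b := Int.natCast_dvd_natCast.1 h6
        have := Nat.le_of_dvd (by omega) h7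
        omega
    · exact hκ h4
  have h2 : (d : ℤ) ∣ ((b.factorial : ℤ) * (b : ℤ) ^ j * κ) * h := by
    rw [show ((b.factorial : ℤ) * (b : ℤ) ^ j * κ) * h = (b.factorial : ℤ) * ((b : ℤ) ^ j * (κ * h)) by ring]
    exact hdv
  exact h1.dvd_of_dvd_mul_left h2

lemma core (b : ℕ) (hb : 2 ≤ b) (κ : ℤ) (t d : ℕ) (h : ℤ) (hd : 2 ≤ d) (hdb : d ≤ b ^ (2 * t))
    (hp : ∀ ℓ : ℕ, ℓ.Prime → ℓ ∣ d → b < ℓ ∧ ¬ (ℓ : ℤ) ∣ κ) (hdh : ¬ (d : ℤ) ∣ h) (j₀ : ℕ) :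
    ∃ i : ℕ, i < 2 * t + 2 ∧ ∀ n : ℤ, 1 / (b : ℝ) ^ 2 ≤
      |(b.factorial : ℝ) * ((b : ℝ) ^ (j₀ + i) * ((κ : ℝ) * ((h : ℝ) / (d : ℝ)))) - n| := by
  by_contra hcon
  push Not at hcon
  choose! n hn using hcon
  have hbr : (2 : ℝ) ≤ b := by exact_mod_cast hb
  have hb0 : (0 : ℝ) < b := by linarith
  have hdr : (0 : ℝ) < d := by exact_mod_cast (by omega : 0 < d)
  obtain ⟨y, hy⟩ : ∃ y : ℕ → ℝ, ∀ i, y i = (b.factorial : ℝ) * ((b : ℝ) ^ (j₀ + i) * ((κ : ℝ) * ((h : ℝ) / (d : ℝ)))) :=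
    ⟨_, fun i => rfl⟩
  have hn' : ∀ i < 2 * t + 2, |y i - n i| < 1 / (b : ℝ) ^ 2 := by
    intro i hi
    rw [hy]
    exact hn i hi
  have hys : ∀ i, y (i + 1) = b * y i := by
    intro i
    rw [hy, hy, ← add_assoc, pow_succ]
    ring
  have hyp : ∀ i, y i = (b : ℝ) ^ i * y 0 := by
    intro i
    induction i with
    | zero => simp
    | succ i ih => rw [hys, ih, pow_succ]; ring
  have hstep : ∀ i, i + 1 < 2 * t + 2 → n (i + 1) = b * n i := by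
    intro i hi
    have h1 := hn' i (by omega)
    have h2 := hn' (i + 1) hi
    have h3 : |((n (i + 1) - b * n i : ℤ) : ℝ)| < 1 := by
      push_cast
      have e : (n (i + 1) : ℝ) - b * n i = b * (y i - n i) - (y (i + 1) - n (i + 1)) := by
        rw [hys]; ring
      rw [e]
      have h4 : |b * (y i - n i)| < 1 / b := by
        rw [abs_mul, abs_of_pos hb0]
        calc (b : ℝ) * |y i - n i| < b * (1 / (b : ℝ) ^ 2) := mul_lt_mul_of_pos_left h1 hb0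
          _ = 1 / b := by field_simp
      have h5 : 1 / (b : ℝ) ≤ 1 / 2 := one_div_le_one_div_of_le (by norm_num) hbr
      have h6 : 1 / (b : ℝ) ^ 2 ≤ 1 / 4 := by
        apply one_div_le_one_div_of_le (by norm_num)
        nlinarith
      calc |b * (y i - n i) - (y (i + 1) - n (i + 1))| ≤ |b * (y i - n i)| + |y (i + 1) - n (i + 1)| := abs_sub _ _
        _ < 1 := by linarith
    have h4 : |n (i + 1) - b * n i| < 1 := by exact_mod_cast h3
    have h5 := Int.abs_lt_one_iff.1 h4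
    linarith
  have hnp : ∀ i, i < 2 * t + 2 → n i = (b : ℤ) ^ i * n 0 := by
    intro i
    induction i with
    | zero => intro _; simp
    | succ i ih => intro hi; rw [hstep i hi, ih (by omega), pow_succ]; ring
  have h1 := hn' (2 * t + 1) (by omega)
  rw [hyp, hnp (2 * t + 1) (by omega)] at h1
  push_cast at h1
  rw [← mul_sub, abs_mul, abs_of_pos (by positivity)] at h1
  have h2 : 1 ≤ (d : ℝ) * |y 0 - n 0| := by
    have e : (d : ℝ) * (y 0 - n 0) = (((b.factorial : ℤ) * ((b : ℤ) ^ j₀ * (κ * h)) - d * n 0 : ℤ) : ℝ) := by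
      have e1 : (d : ℝ) * ((h : ℝ) / (d : ℝ)) = h := by field_simp
      rw [hy, add_zero, mul_sub]
      push_cast
      congr 1
      calc (d : ℝ) * ((b.factorial : ℝ) * ((b : ℝ) ^ j₀ * ((κ : ℝ) * ((h : ℝ) / (d : ℝ)))))
          = (b.factorial : ℝ) * ((b : ℝ) ^ j₀ * ((κ : ℝ) * ((d : ℝ) * ((h : ℝ) / (d : ℝ))))) := by ring
        _ = _ := by rw [e1]
    have e2 : (d : ℝ) * |y 0 - n 0| = |(d : ℝ) * (y 0 - n 0)| := by rw [abs_mul, abs_of_pos hdr]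
    rw [e2, e]
    have hne : (b.factorial : ℤ) * ((b : ℤ) ^ j₀ * (κ * h)) - d * n 0 ≠ 0 := by
      intro h0
      apply coprime_aux b hb κ j₀ d h hp hdh
      exact ⟨n 0, by linarith⟩
    exact_mod_cast Int.one_le_abs hne
  have h3 : (d : ℝ) ≤ (b : ℝ) ^ (2 * t) := by exact_mod_cast hdb
  have h4 : 1 ≤ (b : ℝ) ^ (2 * t) * |y 0 - n 0| := h2.trans (mul_le_mul_of_nonneg_right h3 (abs_nonneg _))
  have h5 : (b : ℝ) ≤ (b : ℝ) ^ (2 * t + 1) * |y 0 - n 0| := by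
    rw [pow_succ, mul_right_comm]
    nlinarith
  have h6 : 1 / (b : ℝ) ^ 2 ≤ 1 := by
    rw [div_le_one (by positivity)]
    nlinarith
  linarith

open Classical in
lemma count (b : ℕ) (hb : 2 ≤ b) (κ : ℤ) (t K N d : ℕ) (h : ℤ) (hK : N * (2 * t + 2) ≤ K) (hd : 2 ≤ d)
    (hdb : d ≤ b ^ (2 * t))
    (hp : ∀ ℓ : ℕ, ℓ.Prime → ℓ ∣ d → b < ℓ ∧ ¬ (ℓ : ℤ) ∣ κ) (hdh : ¬ (d : ℤ) ∣ h) (P : ℕ → Prop)
    (hP : ∀ j : ℕ, (∀ n : ℤ, 1 / (b : ℝ) ^ 2 ≤
      |(b.factorial : ℝ) * ((b : ℝ) ^ j * ((κ : ℝ) * ((h : ℝ) / (d : ℝ)))) - n|) → P j) :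
    N ≤ ((range K).filter fun j => P j).card := by
  have hc := fun i : ℕ => core b hb κ t d h hd hdb hp hdh ((2 * t + 2) * i)
  choose f hf1 hf2 using hc
  have h1 : (range N).card ≤ ((range K).filter fun j => P j).card := by
    apply Finset.card_le_card_of_injOn (fun i => (2 * t + 2) * i + f i)
    · intro i hi
      rw [mem_coe, mem_range] at hi
      rw [mem_coe, mem_filter, mem_range]
      refine ⟨?_, hP _ (hf2 i)⟩
      have e := hf1 i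
      calc (2 * t + 2) * i + f i < (2 * t + 2) * i + (2 * t + 2) := by omega
        _ = (i + 1) * (2 * t + 2) := by ring
        _ ≤ N * (2 * t + 2) := Nat.mul_le_mul_right _ hi
        _ ≤ K := hK
    · intro i _ j _ hij
      have e : ((2 * t + 2) * i + f i) / (2 * t + 2) = ((2 * t + 2) * j + f j) / (2 * t + 2) := by
        rw [show (2 * t + 2) * i + f i = (2 * t + 2) * j + f j from hij]
      rw [Nat.mul_add_div (by omega), Nat.mul_add_div (by omega), Nat.div_eq_of_lt (hf1 i), Nat.div_eq_of_lt (hf1 j)] at e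
      omega
  rwa [card_range] at h1

end Pool.Agent.H85P.GPa

namespace Pool.Agent.H85P

theorem GP_holds : S_GP := by
  intro b hb κ t K N d h hK hd hdb hp hdh
  have h1 := GPa.count b hb κ t K N d h hK hd hdb hp hdh
    (fun j => Pool.Agent.W93.AU.Gd b (4 * (1 / ((b : ℝ) ^ 2 * (b.factorial : ℝ))) ^ 2)
      ((b : ℝ) ^ j * ((κ : ℝ) * ((h : ℝ) / (d : ℝ)))))
    (fun j hj => Pool.Agent.R557.AD.gd_of_far b hb _ (fun n => hj n))
  convert h1 using 2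

end Pool.Agent.H85P
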