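import Pool.Agent.H85P.Stm

set_option autoImplicit false

/-! Intervals, and the growth of `log log`. -/

namespace Pool.Agent.H85P

open Finset

lemma card_int (M a : ℤ) (H d : ℕ) (hd : 1 ≤ d) :
    |(((Ioc M (M + H)).filter (fun x : ℤ => (d : ℤ) ∣ x - a)).card : ℝ) - H / d| ≤ 1 := by
  have hd0 : (0 : ℤ) < d := by exact_mod_cast hd
  have hdr : (0 : ℝ) < d := by exact_mod_cast hd
  have e1 : (Ioc M (M + H)).filter (fun x : ℤ => (d : ℤ) ∣ x - a) =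
      (Ioc M (M + H)).filter (fun x : ℤ => x ≡ a [ZMOD d]) := by
    ext x
    rw [mem_filter, mem_filter, Int.modEq_comm, Int.modEq_iff_dvd]
  have h1 := Int.Ioc_filter_modEq_card M (M + H) hd0 a
  rw [e1]
  have h2 : ⌊(((M : ℤ) : ℚ) - (a : ℚ)) / ((d : ℤ) : ℚ)⌋ ≤ ⌊(((M + H : ℤ) : ℚ) - (a : ℚ)) / ((d : ℤ) : ℚ)⌋ := by
    refine Int.floor_le_floor ?_
    have : (0 : ℚ) < ((d : ℤ) : ℚ) := by exact_mod_cast hd0
    gcongr
    push_cast
    linarith [Nat.cast_nonneg (α := ℚ) H]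
  rw [max_eq_left (by linarith)] at h1
  have h3 : ((((Ioc M (M + H)).filter (fun x : ℤ => x ≡ a [ZMOD d])).card : ℤ) : ℚ) =
      (⌊(((M + H : ℤ) : ℚ) - (a : ℚ)) / ((d : ℤ) : ℚ)⌋ : ℚ) - (⌊(((M : ℤ) : ℚ) - (a : ℚ)) / ((d : ℤ) : ℚ)⌋ : ℚ) := by
    rw [h1]
    push_cast
    ring
  have f1 := Int.floor_le ((((M + H : ℤ) : ℚ) - (a : ℚ)) / ((d : ℤ) : ℚ))
  have f2 := Int.lt_floor_add_one ((((M + H : ℤ) : ℚ) - (a : ℚ)) / ((d : ℤ) : ℚ))
  have f3 := Int.floor_le ((((M : ℤ) : ℚ) - (a : ℚ)) / ((d : ℤ) : ℚ))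
  have f4 := Int.lt_floor_add_one ((((M : ℤ) : ℚ) - (a : ℚ)) / ((d : ℤ) : ℚ))
  have e2 : (((M + H : ℤ) : ℚ) - (a : ℚ)) / ((d : ℤ) : ℚ) = (((M : ℤ) : ℚ) - (a : ℚ)) / ((d : ℤ) : ℚ) + (H : ℚ) / d := by
    push_cast
    ring
  have h5 : |((((Ioc M (M + H)).filter (fun x : ℤ => x ≡ a [ZMOD d])).card : ℕ) : ℚ) - H / d| ≤ 1 := by
    have h6 : ((((Ioc M (M + H)).filter (fun x : ℤ => x ≡ a [ZMOD d])).card : ℕ) : ℚ) =
      (⌊(((M + H : ℤ) : ℚ) - (a : ℚ)) / ((d : ℤ) : ℚ)⌋ : ℚ) - (⌊(((M : ℤ) : ℚ) - (a : ℚ)) / ((d : ℤ) : ℚ)⌋ : ℚ) := by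
      rw [← h3]
      push_cast
      rfl
    rw [h6, abs_le]
    constructor <;> linarith
  have h7 : |(((((Ioc M (M + H)).filter (fun x : ℤ => x ≡ a [ZMOD d])).card : ℕ) : ℚ) - H / d : ℚ)| ≤ 1 := h5
  have h8 := (Rat.cast_le (K := ℝ)).2 h7
  push_cast at h8
  exact h8

open Classical in
theorem int_lev (W : ℕ) (M : ℤ) (H z : ℕ) (hH : 1 ≤ H) (hz : z ^ 2 ≤ H) :
    Lev W z (Ioc M (M + H)) (fun _ => 1 / (H : ℝ)) (fun x => x) := by
  have hH0 : (0 : ℝ) < H := by exact_mod_cast hH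
  refine ⟨fun _ _ => by positivity, ?_, fun d hd2 hdz _ a => ?_⟩
  · rw [sum_const, Int.card_Ioc, nsmul_eq_mul]
    have : (M + H - M).toNat = H := by
      rw [add_sub_cancel_left]
      exact Int.toNat_natCast H
    rw [this]
    field_simp
  · have hz1 : 1 ≤ z ^ 2 := by omega
    have hzr : (1 : ℝ) ≤ (z : ℝ) ^ 2 := by exact_mod_cast hz1
    have hzH : (z : ℝ) ^ 2 ≤ H := by exact_mod_cast hz
    have hdr : (0 : ℝ) < d := by exact_mod_cast (by omega : 0 < d)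
    unfold prob
    rw [sum_const, nsmul_eq_mul]
    have h1 := card_int M a H d (by omega)
    have e1 : (((Ioc M (M + H)).filter (fun x : ℤ => (d : ℤ) ∣ x - a)).card : ℝ) * (1 / (H : ℝ)) - 1 / d =
        ((((Ioc M (M + H)).filter (fun x : ℤ => (d : ℤ) ∣ x - a)).card : ℝ) - H / d) / H := by
      field_simp
    rw [e1, abs_div, abs_of_pos hH0]
    calc _ ≤ 1 / (H : ℝ) := div_le_div_of_nonneg_right h1 hH0.le
      _ ≤ 1 / (z : ℝ) ^ 2 := one_div_le_one_div_of_le (by linarith) hzH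

/-- the growth for intervals -/
lemma grow_int (z₀ : ℕ) : ∃ H₀ : ℕ, 16 ≤ H₀ ∧ ∀ H : ℕ, H₀ ≤ H → z₀ ≤ Nat.sqrt H ∧ 0 < Real.log (Real.log H) ∧
    Real.log (Real.log H) / 2 ≤ Real.log (Real.log (Nat.sqrt H)) := by
  obtain ⟨X, hX⟩ := Filter.eventually_atTop.1 ((Real.tendsto_log_atTop.comp
    (Real.tendsto_log_atTop.comp tendsto_natCast_atTop_atTop)).eventually_ge_atTop (2 * Real.log 4))
  refine ⟨16 + z₀ ^ 2 + X, by omega, fun H hH => ?_⟩
  have h1 : 2 * Real.log 4 ≤ Real.log (Real.log H) := hX H (by omega)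
  have h4 : 0 < Real.log 4 := Real.log_pos (by norm_num)
  set s := Nat.sqrt H with hs
  have hs1 : z₀ ≤ s := by
    rw [hs, Nat.le_sqrt']
    omega
  have hs2 : 4 ≤ s := by
    rw [hs, Nat.le_sqrt']
    omega
  refine ⟨hs1, by linarith, ?_⟩
  have h5 : H < s ^ 4 := by
    have h6 : H < (s + 1) ^ 2 := Nat.lt_succ_sqrt' H
    have h7 : (s + 1) ^ 2 ≤ (2 * s) ^ 2 := Nat.pow_le_pow_left (by omega) 2
    have h8 : (2 * s) ^ 2 ≤ s ^ 4 := by
      calc (2 * s) ^ 2 = 4 * s ^ 2 := by ring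
        _ ≤ s ^ 2 * s ^ 2 := Nat.mul_le_mul_right _ (by nlinarith)
        _ = s ^ 4 := by ring
    omega
  have hH1 : (16 : ℝ) ≤ H := by exact_mod_cast (by omega : 16 ≤ H)
  have hsr : (4 : ℝ) ≤ s := by exact_mod_cast hs2
  have h9 : Real.log H ≤ 4 * Real.log s := by
    have : (H : ℝ) ≤ (s : ℝ) ^ 4 := by exact_mod_cast h5.le
    have h10 := Real.log_le_log (by linarith) this
    rw [Real.log_pow] at h10
    exact_mod_cast h10
  have hlogH : 0 < Real.log H := Real.log_pos (by linarith)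
  have hlogs : 0 < Real.log s := Real.log_pos (by linarith)
  have h11 : Real.log (Real.log H) ≤ Real.log 4 + Real.log (Real.log s) := by
    rw [← Real.log_mul (by norm_num) hlogs.ne']
    exact Real.log_le_log hlogH h9
  linarith

/-- the growth for the digits -/
lemma grow_dig (b R z₀ : ℕ) (hb : 2 ≤ b) (hR : 1 ≤ R) : ∃ K₀ : ℕ, 2 ≤ K₀ ∧ ∀ K : ℕ, K₀ ≤ K → ∃ t : ℕ, 1 ≤ t ∧ R * t ^ 2 ≤ K ∧
    z₀ ≤ b ^ t ∧ 0 < Real.log K ∧ Real.log K / 6 ≤ Real.log (Real.log ((b ^ t : ℕ) : ℝ)) := by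
  refine ⟨R * (z₀ + 4 * R + 4) ^ 2, ?_, fun K hK => ?_⟩
  · nlinarith [Nat.mul_le_mul hR (Nat.pow_le_pow_left (show 4 ≤ z₀ + 4 * R + 4 by omega) 2)]
  set t := Nat.sqrt (K / R) with ht
  have h1 : z₀ + 4 * R + 4 ≤ t := by
    rw [ht, Nat.le_sqrt', Nat.le_div_iff_mul_le (by omega)]
    rw [mul_comm]
    exact hK
  have h2 : t ^ 2 ≤ K / R := Nat.sqrt_le' _
  have h3 : K / R < (t + 1) ^ 2 := Nat.lt_succ_sqrt' _
  have h4 : R * t ^ 2 ≤ K := by
    calc R * t ^ 2 ≤ R * (K / R) := Nat.mul_le_mul_left _ h2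
      _ ≤ K := Nat.mul_div_le K R
  have h5 : K < t ^ 3 := by
    have h6 : K < R * (K / R + 1) := by
      have := Nat.lt_mul_div_succ K (show 0 < R by omega)
      exact this
    have h7 : R * (K / R + 1) ≤ R * (t + 1) ^ 2 := Nat.mul_le_mul_left _ (by omega)
    have h8 : (t + 1) ^ 2 ≤ 4 * t ^ 2 := by nlinarith
    have h9 : R * (t + 1) ^ 2 ≤ R * (4 * t ^ 2) := Nat.mul_le_mul_left _ h8
    have h10 : R * (4 * t ^ 2) ≤ t ^ 3 := by
      calc R * (4 * t ^ 2) = (4 * R) * t ^ 2 := by ring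
        _ ≤ t * t ^ 2 := Nat.mul_le_mul_right _ (by omega)
        _ = t ^ 3 := by ring
    omega
  have ht8 : 8 ≤ t := by omega
  have htr : (8 : ℝ) ≤ t := by exact_mod_cast ht8
  have hlogt : 1 < Real.log t := by
    rw [Real.lt_log_iff_exp_lt (by linarith)]
    exact Real.exp_one_lt_three.trans_le (by linarith)
  have hK64 : 64 ≤ K := by nlinarith [Nat.mul_le_mul hR (Nat.pow_le_pow_left ht8 2)]
  have hKr : (64 : ℝ) ≤ K := by exact_mod_cast hK64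
  have hlogK : Real.log K ≤ 3 * Real.log t := by
    have : (K : ℝ) ≤ (t : ℝ) ^ 3 := by exact_mod_cast h5.le
    have h10 := Real.log_le_log (by linarith) this
    rw [Real.log_pow] at h10
    exact_mod_cast h10
  refine ⟨t, by omega, h4, ?_, Real.log_pos (by linarith), ?_⟩
  · calc z₀ ≤ t := by omega
      _ ≤ b ^ t := (Nat.lt_pow_self (by omega)).le
  · push_cast
    rw [Real.log_pow]
    have hb2 : (2 : ℝ) ≤ b := by exact_mod_cast hb
    have hlb : 1 / 2 ≤ Real.log b := by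
      have h11 := Real.log_two_gt_d9
      have h12 := Real.log_le_log (by norm_num) hb2
      linarith
    have h13 : Real.log (Real.sqrt t) ≤ Real.log (t * Real.log b) := by
      refine Real.log_le_log (Real.sqrt_pos.2 (by linarith)) ?_
      have h14 : Real.sqrt t ≤ t / 2 := by
        rw [Real.sqrt_le_left (by linarith)]
        nlinarith
      have h15 : (t : ℝ) / 2 ≤ t * Real.log b := by nlinarith
      linarith
    rw [Real.log_sqrt (by linarith)] at h13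
    linarith

end Pool.Agent.H85P
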