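import Mathlib
import Pool.Agent.H85G.E

set_option autoImplicit false

/-!
# Project OP (MP_d6ddbd_nt, slot 4, helper85): one-parameter families of plane curves

Statements of the independent parts. `k`, `n` are fixed integers; a finite family of integers `x i`, `i ∈ Ω`, with weights
`w i ≥ 0` of sum `1` is given. The theorem: if the family is equidistributed modulo the `d ≤ z²` without small prime factors,
then for all members but a proportion `C / log log z` the curve `(x² - m)(y² - n) = k` has an obstruction.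
-/

namespace Pool.Agent.H85P

open Finset

open Classical in
/-- the probability that `x i` is congruent to `a` modulo `d` -/
noncomputable def prob {ι : Type} (Ω : Finset ι) (w : ι → ℝ) (x : ι → ℤ) (d : ℕ) (a : ℤ) : ℝ :=
  ∑ i ∈ Ω.filter (fun i => (d : ℤ) ∣ x i - a), w i

/-- equidistribution modulo the `d ≤ z²` whose prime factors are larger than `W` -/
def Lev {ι : Type} (W z : ℕ) (Ω : Finset ι) (w : ι → ℝ) (x : ι → ℤ) : Prop :=
  (∀ i ∈ Ω, 0 ≤ w i) ∧ ∑ i ∈ Ω, w i = 1 ∧ ∀ d : ℕ, 2 ≤ d → d ≤ z ^ 2 → (∀ ℓ : ℕ, ℓ.Prime → ℓ ∣ d → W < ℓ) →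
    ∀ a : ℤ, |prob Ω w x d a - 1 / d| ≤ 1 / (z : ℝ) ^ 2

open Classical in
/-- Stub TK (second moment). Proof. Let `S = ∑_{q ∈ P} 1 / q` and let `X i` be the number of the `q ∈ P` which divide
`n x i - k` exactly once. For `q ∈ P` the condition `q ∣ n x - k` is `x ≡ a mod q` for some `a` (`q ∤ n`), `q² ∣ n x - k`
is a class modulo `q²`, and `q q' ∣ n x - k` (`q ≠ q'`) is one class modulo `q q'`. Write `E` for the mean. By the
hypothesis `E[X] ≥ ∑ (1 / q - 1 / q² - 2 / z²) ≥ S - 1 - 2` (`∑ 1 / q² ≤ 1`: `1 / q² ≤ 1 / (q - 1) - 1 / q`; `|P| ≤ z`) and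
`E[X²] ≤ ∑_{q ≠ q'} (1 / (q q') + 1 / z²) + ∑_q (1 / q + 1 / z²) ≤ S² + 1 + S + 1`. So
`E[(S - X)²] = S² - 2 S E[X] + E[X²] ≤ 7 S + 2`. On the set in question `(S - X)² = S²`, so its probability is at most
`(7 S + 2) / S²`, which is at most `9 / S` if `S ≥ 1`; if `S < 1` use that probabilities are at most `1`. -/
def S_TK : Prop := ∀ (ι : Type) (W z : ℕ) (Ω : Finset ι) (w : ι → ℝ) (x : ι → ℤ), 2 ≤ z → Lev W z Ω w x →
  ∀ (n k : ℤ) (P : Finset ℕ), (∀ q ∈ P, q.Prime ∧ W < q ∧ q ≤ z ∧ ¬ (q : ℤ) ∣ n) → P.Nonempty →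
    ∑ i ∈ Ω.filter (fun i => ∀ q ∈ P, ¬ ((q : ℤ) ∣ n * x i - k ∧ ¬ (q : ℤ) ^ 2 ∣ n * x i - k)), w i ≤
      9 / ∑ q ∈ P, 1 / (q : ℝ)

open Classical in
/-- Stub MQ. Proof: `Pool.Agent.H374R2.V.ZD.nonres_class` (file `H374R2/V/ZD.lean`) gives `M`, `c` coprime such that
`¬ IsSquare (D : ZMod p)` for all primes `p ≡ c mod M`; `Pool.Agent.Y405.CQ.mertens_ap M _ (c % M)` (file
`Y405/CQ/MER.lean`) gives `∑_{p ≤ z, p ≡ c} 1 / p ≥ log log z / φ(M) - C`; the primes `p ≤ W` contribute at most `W`.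
For large `z` this is at least `log log z / (2 φ(M))`. -/
def S_MQ : Prop := ∀ D : ℤ, ¬ IsSquare D → ∃ δ : ℝ, 0 < δ ∧ ∀ W : ℕ, ∃ z₀ : ℕ, ∀ z : ℕ, z₀ ≤ z →
  δ * Real.log (Real.log z) ≤
    ∑ q ∈ (Icc 1 z).filter (fun q => q.Prime ∧ W < q ∧ ¬ IsSquare (D : ZMod q)), 1 / (q : ℝ)

open Pool.Agent.H807R2.Dav (ee) in
open Pool.Agent.W93.AU (Gd) in
open Classical in
/-- Stub GP (good positions of a rational frequency). Let `d ≤ b ^ (2 t)` have only prime factors larger than `b` and not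
dividing `κ`, let `d ∤ h`, `θ = κ h / d` and `N (2 t + 2) ≤ K`. Then at least `N` of the positions `j < K` are good.
Proof. Put `y j = b! b ^ j θ`. Each interval `[j₀, j₀ + B)`, `B = 2 t + 2`, contains a `j` with `Far (1 / b²) (y j)`
(`Pool.Agent.TH872.Mir.Far`: `∀ n : ℤ, 1 / b² ≤ |y j - n|`); for such `j` use `Pool.Agent.R557.AD.gd_of_far`
(file `R557/AD/Few.lean`). Otherwise there are integers `n_i`, `i < B`, with `|y (j₀ + i) - n_i| < 1 / b²`, so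
`|n_(i+1) - b n_i| < 1 / b² + 1 / b < 1`, `n_(i+1) = b n_i`, `n_i = b ^ i n_0`, and
`b ^ (B - 1) |y j₀ - n_0| < 1 / b²`, `|y j₀ - n_0| < b ^ (- 2 t) ≤ 1 / d`. But `y j₀ = b! b ^ j₀ κ h / d` and `d` does not
divide `b! b ^ j₀ κ h` (`d` is coprime to `b! b ^ j₀ κ`), so `|y j₀ - n_0| ≥ 1 / d`, a contradiction. Take the disjoint
intervals with `j₀ = B i`, `i < N`. -/
def S_GP : Prop := ∀ b : ℕ, 2 ≤ b → ∀ (κ : ℤ) (t K N d : ℕ) (h : ℤ), N * (2 * t + 2) ≤ K → 2 ≤ d → d ≤ b ^ (2 * t) →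
  (∀ ℓ : ℕ, ℓ.Prime → ℓ ∣ d → b < ℓ ∧ ¬ (ℓ : ℤ) ∣ κ) → ¬ (d : ℤ) ∣ h →
    N ≤ ((range K).filter fun j => Gd b (4 * (1 / ((b : ℝ) ^ 2 * (b.factorial : ℝ))) ^ 2)
      ((b : ℝ) ^ j * ((κ : ℝ) * ((h : ℝ) / (d : ℝ))))).card

open Pool.Agent.H807R2.Dav (ee) in
/-- Stub OR (orthogonality). Proof. `1_{d ∣ x - a} = (1 / d) ∑_{h < d} ee (h (x - a) / d)`; the term `h = 0` gives `1 / d`
(the weights have sum `1`), the other ones are at most `τ` in absolute value (`‖ee‖ = 1`). (`ee x = exp (2 π i x)`,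
`Pool.Agent.H807R2.Dav`; look for an orthogonality lemma in the library.) -/
def S_OR : Prop := ∀ (ι : Type) (Ω : Finset ι) (w : ι → ℝ) (x : ι → ℤ), (∀ i ∈ Ω, 0 ≤ w i) → ∑ i ∈ Ω, w i = 1 →
  ∀ (d : ℕ) (τ : ℝ), 1 ≤ d → 0 ≤ τ →
    (∀ h : ℤ, ¬ (d : ℤ) ∣ h → ‖∑ i ∈ Ω, (w i : ℂ) * ee ((x i : ℝ) * ((h : ℝ) / (d : ℝ)))‖ ≤ τ) →
    ∀ a : ℤ, |prob Ω w x d a - 1 / d| ≤ τ

end Pool.Agent.H85P
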