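import Mathlib
import Pool.Agent.H85P.Stm
import Pool.Agent.H374R2.V.ZD
import Pool.Agent.Y405.CQ.MER

set_option autoImplicit false

/-! Project OP, stub MQ (helper36). -/

namespace Pool.Agent.H85P

open Finset Filter

/-- **MQ.** -/
theorem MQ_holds : S_MQ := by
  classical
  intro D hD
  obtain ⟨M, c, hM, hc, hp⟩ := Pool.Agent.H374R2.V.ZD.nonres_class D hD
  have hcM : c % M < M := Nat.mod_lt _ hM
  have hcc : (c % M).Coprime M := by
    have h1 : Nat.gcd (c % M) M = Nat.gcd M c := (Nat.gcd_rec M c).symm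
    have h2 : Nat.gcd c M = 1 := hc
    rw [Nat.Coprime, h1, Nat.gcd_comm, h2]
  obtain ⟨C, hC0, hC⟩ := Pool.Agent.Y405.CQ.mertens_ap M hM (c % M) hcM hcc
  have hφ : (0 : ℝ) < (Nat.totient M : ℝ) := by exact_mod_cast Nat.totient_pos.2 hM
  refine ⟨1 / (2 * (Nat.totient M : ℝ)), by positivity, fun W => ?_⟩
  have hll : Tendsto (fun x : ℕ => Real.log (Real.log (x : ℝ))) atTop atTop :=
    Real.tendsto_log_atTop.comp (Real.tendsto_log_atTop.comp tendsto_natCast_atTop_atTop)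
  obtain ⟨x1, hx1⟩ := eventually_atTop.1
    (hll.eventually_ge_atTop (2 * (Nat.totient M : ℝ) * (C + W)))
  refine ⟨max 3 x1, fun z hz => ?_⟩
  have hz3 : 3 ≤ z := (le_max_left _ _).trans hz
  have hz1 := hx1 z ((le_max_right _ _).trans hz)
  have h1 := (abs_le.1 (hC z hz3)).1
  have hsub : (Icc 1 z).filter (fun p => p.Prime ∧ p % M = c % M) ⊆
      (Icc 1 z).filter (fun q => q.Prime ∧ W < q ∧ ¬ IsSquare (D : ZMod q)) ∪ Icc 1 W := by
    intro p hpm
    obtain ⟨g1, g2, g3⟩ := mem_filter.1 hpm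
    rw [mem_union]
    rcases Nat.lt_or_ge W p with h | h
    · exact Or.inl (mem_filter.2 ⟨g1, g2, h, hp p g2 g3⟩)
    · exact Or.inr (mem_Icc.2 ⟨(mem_Icc.1 g1).1, h⟩)
  have h2 : ∑ p ∈ (Icc 1 z).filter (fun p => p.Prime ∧ p % M = c % M), (1 : ℝ) / p ≤
      ∑ p ∈ (Icc 1 z).filter (fun q => q.Prime ∧ W < q ∧ ¬ IsSquare (D : ZMod q)) ∪ Icc 1 W,
        (1 : ℝ) / p :=
    sum_le_sum_of_subset_of_nonneg hsub fun i _ _ => by positivity
  have h3 := sum_union_inter (s₁ := (Icc 1 z).filter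
    (fun q => q.Prime ∧ W < q ∧ ¬ IsSquare (D : ZMod q))) (s₂ := Icc 1 W)
    (f := fun p : ℕ => (1 : ℝ) / p)
  have h4 : (0 : ℝ) ≤ ∑ p ∈ (Icc 1 z).filter
      (fun q => q.Prime ∧ W < q ∧ ¬ IsSquare (D : ZMod q)) ∩ Icc 1 W, (1 : ℝ) / p :=
    sum_nonneg fun i _ => by positivity
  have h5 : ∑ p ∈ Icc 1 W, (1 : ℝ) / p ≤ W := by
    calc ∑ p ∈ Icc 1 W, (1 : ℝ) / p ≤ ∑ p ∈ Icc 1 W, (1 : ℝ) := by
          refine sum_le_sum fun i hi => ?_
          have : (1 : ℝ) ≤ i := by exact_mod_cast (mem_Icc.1 hi).1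
          exact div_le_one_of_le₀ this (by positivity)
      _ = W := by simp
  have h6 : 1 / (2 * (Nat.totient M : ℝ)) * Real.log (Real.log z) ≥ C + W := by
    rw [ge_iff_le, one_div, inv_mul_eq_div, le_div_iff₀ (by positivity)]
    linarith
  have h7 : 1 / (Nat.totient M : ℝ) * Real.log (Real.log z) =
      2 * (1 / (2 * (Nat.totient M : ℝ)) * Real.log (Real.log z)) := by
    field_simp
  linarith

end Pool.Agent.H85P
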