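import Pool.Agent.H85P.Stm

set_option autoImplicit false

/-! Stub OR (helper4): orthogonality. -/

namespace Pool.Agent.H85P

open Finset
open Pool.Agent.H807R2.Dav (ee ee_add ee_zero ee_int norm_ee ee_pow)

/-- orthogonality of the additive characters modulo `d` -/
lemma or_orth (d : ℕ) (hd : 1 ≤ d) (n : ℤ) :
    ∑ h ∈ range d, ee ((n : ℝ) * ((h : ℝ) / (d : ℝ))) = if (d : ℤ) ∣ n then (d : ℂ) else 0 := by
  have hd0 : (d : ℝ) ≠ 0 := by positivity
  split_ifs with hn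
  · obtain ⟨m, rfl⟩ := hn
    have h1 : ∀ h ∈ range d, ee ((((d : ℤ) * m : ℤ) : ℝ) * ((h : ℝ) / (d : ℝ))) = 1 := by
      intro h _
      have h2 : (((d : ℤ) * m : ℤ) : ℝ) * ((h : ℝ) / (d : ℝ)) = ((m * h : ℤ) : ℝ) := by
        push_cast
        field_simp
      rw [h2, ee_int]
    rw [sum_congr rfl h1]
    simp
  · have h1 : ∀ h ∈ range d, ee ((n : ℝ) * ((h : ℝ) / (d : ℝ))) = ee ((n : ℝ) / d) ^ h := by
      intro h _
      rw [← ee_pow]
      congr 1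
      ring
    rw [sum_congr rfl h1]
    have h2 : ee ((n : ℝ) / d) ^ d = 1 := by
      rw [← ee_pow, mul_div_cancel₀ _ hd0, ee_int]
    have h3 : ee ((n : ℝ) / d) ≠ 1 := by
      intro h4
      unfold ee at h4
      rw [Complex.exp_eq_one_iff] at h4
      obtain ⟨m, hm⟩ := h4
      apply hn
      refine ⟨m, ?_⟩
      have hpi : (2 * (Real.pi : ℂ) * Complex.I) ≠ 0 := by
        simp [Real.pi_ne_zero, Complex.I_ne_zero]
      have h5 : (((n : ℝ) / d : ℝ) : ℂ) = m := by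
        apply mul_left_cancel₀ hpi
        rw [hm]
        ring
      have h6 : ((n : ℝ) / d : ℝ) = m := by exact_mod_cast h5
      rw [div_eq_iff hd0] at h6
      have h7 : (n : ℝ) = ((d * m : ℤ) : ℝ) := by
        push_cast
        linarith
      exact_mod_cast h7
    have h4 := geom_sum_mul (ee ((n : ℝ) / d)) d
    rw [h2, sub_self] at h4
    rcases mul_eq_zero.1 h4 with h5 | h5
    · exact h5
    · exact absurd (sub_eq_zero.1 h5) h3

theorem OR_holds : S_OR := by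
  classical
  intro ι Ω w x hw hw1 d τ hd hτ hexp a
  have hd0 : (d : ℝ) ≠ 0 := by positivity
  have hdC : (d : ℂ) ≠ 0 := by exact_mod_cast hd0
  -- the probability as an exponential sum
  have h1 : ((prob Ω w x d a : ℝ) : ℂ) = (1 / (d : ℂ)) *
      ∑ h ∈ range d, ee (((-a : ℤ) : ℝ) * ((h : ℝ) / (d : ℝ))) *
        ∑ i ∈ Ω, (w i : ℂ) * ee ((x i : ℝ) * (((h : ℤ) : ℝ) / (d : ℝ))) := by
    unfold prob
    rw [sum_filter, Complex.ofReal_sum]
    have h2 : ∀ i ∈ Ω, (if (d : ℤ) ∣ x i - a then (w i : ℂ) else 0) =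
        (1 / (d : ℂ)) * ∑ h ∈ range d, ee (((-a : ℤ) : ℝ) * ((h : ℝ) / (d : ℝ))) *
          ((w i : ℂ) * ee ((x i : ℝ) * (((h : ℤ) : ℝ) / (d : ℝ)))) := by
      intro i _
      have h3 := or_orth d hd (x i - a)
      have h4 : ∑ h ∈ range d, ee (((-a : ℤ) : ℝ) * ((h : ℝ) / (d : ℝ))) *
          ((w i : ℂ) * ee ((x i : ℝ) * (((h : ℤ) : ℝ) / (d : ℝ)))) =
          (w i : ℂ) * ∑ h ∈ range d, ee (((x i - a : ℤ) : ℝ) * ((h : ℝ) / (d : ℝ))) := by
        rw [mul_sum]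
        refine sum_congr rfl fun h _ => ?_
        have h5 : ((x i - a : ℤ) : ℝ) * ((h : ℝ) / (d : ℝ)) =
            ((-a : ℤ) : ℝ) * ((h : ℝ) / (d : ℝ)) + (x i : ℝ) * (((h : ℤ) : ℝ) / (d : ℝ)) := by
          push_cast
          ring
        rw [h5, ee_add]
        ring
      rw [h4, h3]
      split_ifs
      · field_simp
      · simp
    have h6 : ∀ i ∈ Ω, (((if (d : ℤ) ∣ x i - a then w i else 0 : ℝ)) : ℂ) =
        (if (d : ℤ) ∣ x i - a then (w i : ℂ) else 0) := by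
      intro i _
      split_ifs <;> simp
    rw [sum_congr rfl h6, sum_congr rfl h2, ← mul_sum, sum_comm]
    congr 1
    refine sum_congr rfl fun h _ => ?_
    rw [mul_sum]
  -- split off the term `h = 0`
  have h7 : ∑ h ∈ range d, ee (((-a : ℤ) : ℝ) * ((h : ℝ) / (d : ℝ))) *
        ∑ i ∈ Ω, (w i : ℂ) * ee ((x i : ℝ) * (((h : ℤ) : ℝ) / (d : ℝ))) =
      1 + ∑ h ∈ (range d).erase 0, ee (((-a : ℤ) : ℝ) * ((h : ℝ) / (d : ℝ))) *
        ∑ i ∈ Ω, (w i : ℂ) * ee ((x i : ℝ) * (((h : ℤ) : ℝ) / (d : ℝ))) := by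
    rw [← add_sum_erase (range d) _ (mem_range.2 (by omega : 0 < d))]
    congr 1
    have h8 : (∑ i ∈ Ω, (w i : ℂ)) = 1 := by
      rw [← Complex.ofReal_sum, hw1, Complex.ofReal_one]
    simp [ee_zero, h8]
  have h9 : ∀ h ∈ (range d).erase 0, ‖ee (((-a : ℤ) : ℝ) * ((h : ℝ) / (d : ℝ))) *
        ∑ i ∈ Ω, (w i : ℂ) * ee ((x i : ℝ) * (((h : ℤ) : ℝ) / (d : ℝ)))‖ ≤ τ := by
    intro h hh
    rw [mem_erase, mem_range] at hh
    rw [norm_mul, norm_ee, one_mul]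
    apply hexp
    intro hdvd
    have h10 : d ∣ h := by exact_mod_cast hdvd
    exact absurd (Nat.le_of_dvd (by omega) h10) (by omega)
  have h11 : ((prob Ω w x d a - 1 / d : ℝ) : ℂ) = (1 / (d : ℂ)) *
      ∑ h ∈ (range d).erase 0, ee (((-a : ℤ) : ℝ) * ((h : ℝ) / (d : ℝ))) *
        ∑ i ∈ Ω, (w i : ℂ) * ee ((x i : ℝ) * (((h : ℤ) : ℝ) / (d : ℝ))) := by
    rw [Complex.ofReal_sub, h1, h7]
    push_cast
    ring
  rw [← Real.norm_eq_abs, ← Complex.norm_real, h11, norm_mul]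
  have h12 : ‖(1 / (d : ℂ))‖ = 1 / (d : ℝ) := by
    rw [norm_div, norm_one, Complex.norm_natCast]
  rw [h12]
  have h13 : ‖∑ h ∈ (range d).erase 0, ee (((-a : ℤ) : ℝ) * ((h : ℝ) / (d : ℝ))) *
        ∑ i ∈ Ω, (w i : ℂ) * ee ((x i : ℝ) * (((h : ℤ) : ℝ) / (d : ℝ)))‖ ≤ d * τ := by
    refine (norm_sum_le _ _).trans ((sum_le_sum h9).trans ?_)
    rw [sum_const, nsmul_eq_mul]
    refine mul_le_mul_of_nonneg_right ?_ hτ
    have h14 : ((range d).erase 0).card ≤ d := (card_erase_le).trans (by simp)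
    exact_mod_cast h14
  calc 1 / (d : ℝ) * _ ≤ 1 / (d : ℝ) * (d * τ) := mul_le_mul_of_nonneg_left h13 (by positivity)
    _ = τ := by field_simp

end Pool.Agent.H85P
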