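import Pool.Agent.H85P.Stm

set_option autoImplicit false

/-! Project OP, stub TK: the second moment (helper85). -/

namespace Pool.Agent.H85P

open Finset

lemma tk_lin (d n k : ℤ) (hc : IsCoprime d n) : ∃ a : ℤ, ∀ y : ℤ, d ∣ n * y - k ↔ d ∣ y - a := by
  obtain ⟨u, v, huv⟩ := hc
  refine ⟨v * k, fun y => ?_⟩
  have e1 : n * (y - v * k) = n * y - k + d * (u * k) := by
    have : v * n = 1 - u * d := by linarith
    linear_combination (-k) * this
  constructor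
  · intro h
    have h1 : d ∣ n * (y - v * k) := by
      rw [e1]
      exact dvd_add h (dvd_mul_right _ _)
    exact IsCoprime.dvd_of_dvd_mul_left ⟨u, v, huv⟩ h1
  · intro h
    have h1 : d ∣ n * y - k + d * (u * k) := by
      rw [← e1]
      exact h.mul_left _
    exact (dvd_add_left (dvd_mul_right _ _)).1 h1

theorem TK_holds : S_TK := by
  classical
  rintro ι W z Ω w x hz ⟨hw, hw1, hlev⟩ n k P hP hPne
  have hzr : (2 : ℝ) ≤ z := by exact_mod_cast hz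
  set Z : ℕ → ℝ := fun d => ∑ i ∈ Ω, (if (d : ℤ) ∣ n * x i - k then w i else 0) with hZ
  have hZd : ∀ d : ℕ, 2 ≤ d → d ≤ z ^ 2 → (∀ ℓ : ℕ, ℓ.Prime → ℓ ∣ d → W < ℓ) → IsCoprime (d : ℤ) n →
      |Z d - 1 / d| ≤ 1 / (z : ℝ) ^ 2 := by
    intro d h2 hd hℓ hc
    obtain ⟨a, ha⟩ := tk_lin d n k hc
    have h1 := hlev d h2 hd hℓ a
    unfold prob at h1
    rw [sum_filter] at h1
    have e1 : Z d = ∑ i ∈ Ω, (if (d : ℤ) ∣ x i - a then w i else 0) := by
      rw [hZ]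
      exact sum_congr rfl fun i _ => by simp only [ha (x i)]
    rw [e1]
    exact h1
  have hcop : ∀ q ∈ P, IsCoprime (q : ℤ) n := fun q hq =>
    ((Nat.prime_iff_prime_int.1 (hP q hq).1).coprime_iff_not_dvd).2 (hP q hq).2.2.2
  have hZq : ∀ q ∈ P, |Z q - 1 / q| ≤ 1 / (z : ℝ) ^ 2 := by
    intro q hq
    obtain ⟨h1, h2, h3, -⟩ := hP q hq
    refine hZd q h1.two_le (by nlinarith) (fun ℓ hℓ hd => ?_) (hcop q hq)
    rw [(Nat.prime_dvd_prime_iff_eq hℓ h1).1 hd]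
    exact h2
  have hZqq : ∀ q ∈ P, ∀ q' ∈ P, |Z (q * q') - 1 / ((q * q' : ℕ) : ℝ)| ≤ 1 / (z : ℝ) ^ 2 := by
    intro q hq q' hq'
    obtain ⟨h1, h2, h3, -⟩ := hP q hq
    obtain ⟨h1', h2', h3', -⟩ := hP q' hq'
    refine hZd (q * q') (by nlinarith [h1.two_le, h1'.two_le]) (by
      rw [sq]
      exact Nat.mul_le_mul h3 h3') (fun ℓ hℓ hd => ?_) ?_
    · rcases (Nat.Prime.dvd_mul hℓ).1 hd with hd | hd
      · rw [(Nat.prime_dvd_prime_iff_eq hℓ h1).1 hd]
        exact h2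
      · rw [(Nat.prime_dvd_prime_iff_eq hℓ h1').1 hd]
        exact h2'
    · push_cast
      exact IsCoprime.mul_left (hcop q hq) (hcop q' hq')
  set S : ℝ := ∑ q ∈ P, 1 / (q : ℝ) with hS
  have hS0 : 0 < S := sum_pos (fun q hq => by
    have : 0 < q := (hP q hq).1.pos
    positivity) hPne
  have hc : (P.card : ℝ) ≤ z := by
    have h1 : P ⊆ Icc 1 z := fun q hq => mem_Icc.2 ⟨(hP q hq).1.one_lt.le, (hP q hq).2.2.1⟩
    have h2 := card_le_card h1
    rw [Nat.card_Icc] at h2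
    exact_mod_cast (by omega : P.card ≤ z)
  have hc0 : (0 : ℝ) ≤ P.card := Nat.cast_nonneg _
  have hT : ∑ q ∈ P, 1 / (q : ℝ) ^ 2 ≤ 1 := by
    have h1 : P ⊆ Ioo 1 (z + 1) := fun q hq => mem_Ioo.2 ⟨(hP q hq).1.one_lt, by have := (hP q hq).2.2.1; omega⟩
    have h2 := sum_Ioo_inv_sq_le (α := ℝ) 1 (z + 1)
    calc ∑ q ∈ P, 1 / (q : ℝ) ^ 2 ≤ ∑ q ∈ Ioo 1 (z + 1), 1 / (q : ℝ) ^ 2 :=
          sum_le_sum_of_subset_of_nonneg h1 fun _ _ _ => by positivity
      _ = ∑ q ∈ Ioo 1 (z + 1), ((q : ℝ) ^ 2)⁻¹ := sum_congr rfl fun _ _ => one_div _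
      _ ≤ 2 / ((1 : ℕ) + 1) := h2
      _ = 1 := by norm_num
  set f : ι → ℕ → ℝ := fun i q => if ((q : ℤ) ∣ n * x i - k ∧ ¬ (q : ℤ) ^ 2 ∣ n * x i - k) then 1 else 0 with hf
  have hE1 : S - 2 ≤ ∑ i ∈ Ω, w i * ∑ q ∈ P, f i q := by
    have e1 : ∑ i ∈ Ω, w i * ∑ q ∈ P, f i q = ∑ q ∈ P, (Z q - Z (q * q)) := by
      simp only [mul_sum]
      rw [sum_comm]
      refine sum_congr rfl fun q _ => ?_
      rw [hZ]
      simp only
      rw [← sum_sub_distrib]
      refine sum_congr rfl fun i _ => ?_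
      have e2 : (((q * q : ℕ) : ℤ)) = (q : ℤ) ^ 2 := by push_cast; ring
      rw [e2, hf]
      simp only
      by_cases h1 : (q : ℤ) ∣ n * x i - k
      · by_cases h2 : (q : ℤ) ^ 2 ∣ n * x i - k
        · simp [h1, h2]
        · simp [h1, h2]
      · have h2 : ¬ (q : ℤ) ^ 2 ∣ n * x i - k := fun h => h1 ((dvd_pow_self _ two_ne_zero).trans h)
        simp [h1, h2]
    rw [e1]
    have h1 : ∀ q ∈ P, 1 / (q : ℝ) - 1 / (q : ℝ) ^ 2 - 2 / (z : ℝ) ^ 2 ≤ Z q - Z (q * q) := by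
      intro q hq
      have a1 := (abs_le.1 (hZq q hq)).1
      have a2 := (abs_le.1 (hZqq q hq q hq)).2
      have e3 : (1 : ℝ) / ((q * q : ℕ) : ℝ) = 1 / (q : ℝ) ^ 2 := by push_cast; rw [sq]
      rw [e3] at a2
      have e4 : 2 / (z : ℝ) ^ 2 = 1 / (z : ℝ) ^ 2 + 1 / (z : ℝ) ^ 2 := by ring
      rw [e4]
      linarith
    have h2 := sum_le_sum h1
    rw [sum_sub_distrib, sum_sub_distrib, sum_const, nsmul_eq_mul] at h2
    have h3 : (P.card : ℝ) * (2 / (z : ℝ) ^ 2) ≤ 1 := by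
      rw [mul_div_assoc', div_le_one (by positivity)]
      nlinarith
    linarith
  have hE2 : ∑ i ∈ Ω, w i * (∑ q ∈ P, f i q) ^ 2 ≤ S ^ 2 + S + 1 := by
    have h1 : ∀ i ∈ Ω, w i * (∑ q ∈ P, f i q) ^ 2 ≤ ∑ q ∈ P, ∑ q' ∈ P,
        (if q = q' then (if (q : ℤ) ∣ n * x i - k then w i else 0)
          else (if ((q * q' : ℕ) : ℤ) ∣ n * x i - k then w i else 0)) := by
      intro i hi
      rw [sq, sum_mul_sum, mul_sum]
      refine sum_le_sum fun q hq => ?_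
      rw [mul_sum]
      refine sum_le_sum fun q' hq' => ?_
      have hwi := hw i hi
      rw [hf]
      simp only
      by_cases hqq : q = q'
      · subst hqq
        rw [if_pos rfl]
        by_cases h1 : (q : ℤ) ∣ n * x i - k
        · rw [if_pos h1]
          split_ifs <;> simp [hwi]
        · rw [if_neg h1, if_neg (fun h => h1 h.1)]
          simp
      · rw [if_neg hqq]
        by_cases h1 : ((q * q' : ℕ) : ℤ) ∣ n * x i - k
        · rw [if_pos h1]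
          split_ifs <;> simp [hwi]
        · rw [if_neg h1]
          by_cases h2 : (q : ℤ) ∣ n * x i - k
          · have h3 : ¬ (q' : ℤ) ∣ n * x i - k := by
              intro h3
              apply h1
              push_cast
              have hcc : IsCoprime (q : ℤ) (q' : ℤ) :=
                Nat.isCoprime_iff_coprime.2 ((Nat.coprime_primes (hP q hq).1 (hP q' hq').1).2 hqq)
              exact hcc.mul_dvd h2 h3
            rw [if_neg (fun h : (q' : ℤ) ∣ n * x i - k ∧ ¬ (q' : ℤ) ^ 2 ∣ n * x i - k => h3 h.1)]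
            simp
          · rw [if_neg (fun h : (q : ℤ) ∣ n * x i - k ∧ ¬ (q : ℤ) ^ 2 ∣ n * x i - k => h2 h.1)]
            simp
    have h2 := sum_le_sum h1
    refine h2.trans ?_
    rw [sum_comm]
    have h3 : ∀ q ∈ P, ∑ i ∈ Ω, ∑ q' ∈ P, (if q = q' then (if (q : ℤ) ∣ n * x i - k then w i else 0)
          else (if ((q * q' : ℕ) : ℤ) ∣ n * x i - k then w i else 0)) ≤
        ∑ q' ∈ P, (1 / (q : ℝ) * (1 / (q' : ℝ)) + 1 / (z : ℝ) ^ 2 + if q = q' then 1 / (q : ℝ) else 0) := by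
      intro q hq
      rw [sum_comm]
      refine sum_le_sum fun q' hq' => ?_
      have hq0 : (0 : ℝ) < q := by exact_mod_cast (hP q hq).1.pos
      have hq0' : (0 : ℝ) < q' := by exact_mod_cast (hP q' hq').1.pos
      by_cases hqq : q = q'
      · simp only [if_pos hqq]
        have a1 := (abs_le.1 (hZq q hq)).2
        have e1 : Z q = ∑ i ∈ Ω, (if (q : ℤ) ∣ n * x i - k then w i else 0) := rfl
        rw [← e1]
        have : 0 ≤ 1 / (q : ℝ) * (1 / (q' : ℝ)) := by positivity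
        linarith
      · simp only [if_neg hqq]
        have a1 := (abs_le.1 (hZqq q hq q' hq')).2
        have e1 : Z (q * q') = ∑ i ∈ Ω, (if ((q * q' : ℕ) : ℤ) ∣ n * x i - k then w i else 0) := rfl
        rw [← e1]
        have e2 : (1 : ℝ) / ((q * q' : ℕ) : ℝ) = 1 / (q : ℝ) * (1 / (q' : ℝ)) := by
          push_cast
          field_simp
        rw [e2] at a1
        linarith
    refine (sum_le_sum h3).trans ?_
    have e1 : ∀ q ∈ P, ∑ q' ∈ P, (1 / (q : ℝ) * (1 / (q' : ℝ)) + 1 / (z : ℝ) ^ 2 + if q = q' then 1 / (q : ℝ) else 0) =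
        1 / (q : ℝ) * S + P.card * (1 / (z : ℝ) ^ 2) + 1 / (q : ℝ) := by
      intro q hq
      rw [sum_add_distrib, sum_add_distrib, ← mul_sum, sum_const, nsmul_eq_mul, sum_ite_eq, if_pos hq]
    rw [sum_congr rfl e1, sum_add_distrib, sum_add_distrib, ← sum_mul, sum_const, nsmul_eq_mul]
    have h4 : (P.card : ℝ) * (P.card * (1 / (z : ℝ) ^ 2)) ≤ 1 := by
      rw [← mul_assoc, mul_one_div, div_le_one (by positivity)]
      nlinarith
    have e5 : (∑ q ∈ P, 1 / (q : ℝ)) = S := rfl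
    rw [e5]
    nlinarith
  -- Chebyshev
  set A := Ω.filter (fun i => ∀ q ∈ P, ¬ ((q : ℤ) ∣ n * x i - k ∧ ¬ (q : ℤ) ^ 2 ∣ n * x i - k)) with hA
  have h5 : S ^ 2 * ∑ i ∈ A, w i ≤ 5 * S + 1 := by
    have h6 : S ^ 2 * ∑ i ∈ A, w i ≤ ∑ i ∈ Ω, w i * (S - ∑ q ∈ P, f i q) ^ 2 := by
      rw [mul_sum]
      calc ∑ i ∈ A, S ^ 2 * w i = ∑ i ∈ A, w i * (S - ∑ q ∈ P, f i q) ^ 2 := by
            refine sum_congr rfl fun i hi => ?_
            have h7 : ∑ q ∈ P, f i q = 0 := sum_eq_zero fun q hq => by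
              rw [hf]
              simp only
              rw [if_neg ((mem_filter.1 hi).2 q hq)]
            rw [h7, sub_zero, mul_comm]
        _ ≤ ∑ i ∈ Ω, w i * (S - ∑ q ∈ P, f i q) ^ 2 :=
            sum_le_sum_of_subset_of_nonneg (filter_subset _ _) fun i hi _ => mul_nonneg (hw i hi) (sq_nonneg _)
    have e6 : ∑ i ∈ Ω, w i * (S - ∑ q ∈ P, f i q) ^ 2 =
        S ^ 2 * ∑ i ∈ Ω, w i - 2 * S * ∑ i ∈ Ω, w i * ∑ q ∈ P, f i q + ∑ i ∈ Ω, w i * (∑ q ∈ P, f i q) ^ 2 := by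
      rw [mul_sum, mul_sum, ← sum_sub_distrib, ← sum_add_distrib]
      refine sum_congr rfl fun i _ => ?_
      ring
    rw [e6, hw1] at h6
    nlinarith
  have hA0 : 0 ≤ ∑ i ∈ A, w i := sum_nonneg fun i hi => hw i (mem_filter.1 hi).1
  have hA1 : ∑ i ∈ A, w i ≤ 1 := by
    rw [← hw1]
    exact sum_le_sum_of_subset_of_nonneg (filter_subset _ _) fun i hi _ => hw i hi
  rw [le_div_iff₀ hS0]
  by_cases hS1 : S ≤ 1
  · nlinarith
  · push Not at hS1
    have h8 : S * (S * ∑ i ∈ A, w i) ≤ S * 9 := by nlinarith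
    have h9 := le_of_mul_le_mul_left h8 hS0
    linarith

end Pool.Agent.H85P
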